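import Mathlib
import Pool.Agent.NH20.NF.Uni
import Pool.Agent.NH20.NF.Lang

/-!
# Lang's inequality for almost all rational linear combinations of real algebraic numbers

Let `ω_1, ..., ω_n` be real algebraic numbers such that `1, ω_1, ..., ω_n` are linearly independent
over the rationals. We consider the numbers `(x_0 + x_1 ω_1 + ... + x_n ω_n) / y` with integers
`|x_i| ≤ H`, `1 ≤ y ≤ H`, and show that almost all of them satisfy Lang's inequality (and
Khintchine's inequality for every nonincreasing `ψ` with convergent sum) for all denominators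
`q ≤ H ^ κ`, where `κ < n + 1` is arbitrary if `n ≥ 2` and `κ` is arbitrary if `n = 1`. Together
with `1` the numbers `ω_i` can be any basis of a real number field.

The proof uses the subspace theorem (helper files `Pool.Agent.NH20.NF`, `Pool.Agent.R333.SubR`).
-/

set_option autoImplicit false

open Finset Filter Topology

namespace Pool.Agent.Results.MP_c307ca_nt.LinearCombinations

/-- the number `(x_0 + x_1 ω_1 + ... + x_n ω_n) / y` for `v = (x_0, (x_1, ..., x_n), y)` -/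
noncomputable def value {n : ℕ} (ω : Fin n → ℝ) (v : ℤ × (Fin n → ℤ) × ℕ) : ℝ :=
  ((v.1 : ℝ) + ∑ i, (v.2.1 i : ℝ) * ω i) / (v.2.2 : ℝ)

/-- the integer vectors `(x_0, (x_1, ..., x_n), y)` with `|x_i| ≤ H`, `1 ≤ y ≤ H` and
`(x_1, ..., x_n) ≠ 0` -/
def vectors (n H : ℕ) : Set (ℤ × (Fin n → ℤ) × ℕ) :=
  {v | |v.1| ≤ (H : ℤ) ∧ (∀ i, |v.2.1 i| ≤ (H : ℤ)) ∧ v.2.1 ≠ 0 ∧ 1 ≤ v.2.2 ∧ v.2.2 ≤ H}

open Pool.Agent.NH20.NF

lemma ind_of {n : ℕ} (ω : Fin n → ℝ)
    (h : LinearIndependent ℚ (Fin.cons 1 ω : Fin (n + 1) → ℝ)) : Ind ω := by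
  intro a b hab
  have h1 := Fintype.linearIndependent_iff.1 h (Fin.cons (a : ℚ) (fun i => (b i : ℚ))) (by
    rw [Fin.sum_univ_succ]
    simp only [Fin.cons_zero, Fin.cons_succ, Rat.smul_def]
    push_cast
    rw [mul_one]
    exact hab)
  constructor
  · have := h1 0
    simp only [Fin.cons_zero] at this
    exact_mod_cast this
  · funext i
    have := h1 i.succ
    simp only [Fin.cons_succ] at this
    exact_mod_cast this

lemma exc_sub {n : ℕ} (ω : Fin n → ℝ) (ψ : ℕ → ℝ) (c κ : ℝ) (H : ℕ) :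
    {v | v ∈ vectors n H ∧ ∃ (q : ℕ) (p : ℤ), 1 ≤ q ∧ (q : ℝ) ≤ (H : ℝ) ^ κ ∧
      |value ω v - p / q| ≤ c * ψ q / q} ⊆ (BV ω ψ c κ H : Set (ℤ × (Fin n → ℤ) × ℕ)) := by
  classical
  rintro ⟨x0, x, y⟩ ⟨⟨h1, h2, h3, h4, h5⟩, q, p, h6, h7, h8⟩
  unfold BV
  rw [Finset.mem_coe, Finset.mem_filter, Finset.mem_product, Finset.mem_product, Finset.mem_Icc,
    mem_bx, Finset.mem_Icc]
  refine ⟨⟨abs_le.1 h1, h2, h4, h5⟩, h3, q, h6, h7, p, ?_⟩
  have hq : (0 : ℝ) < q := by exact_mod_cast (by omega : 0 < q)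
  have h9 : (q : ℝ) * ((x0 + lf ω x) / y) - p = q * (value ω (x0, x, y) - p / q) := by
    unfold value lf
    field_simp
  simp only
  rw [h9, abs_mul, abs_of_pos hq]
  rw [le_div_iff₀ hq] at h8
  linarith

lemma ncard_exc_le {n : ℕ} (ω : Fin n → ℝ) (ψ : ℕ → ℝ) (c κ : ℝ) (H : ℕ) :
    ({v | v ∈ vectors n H ∧ ∃ (q : ℕ) (p : ℤ), 1 ≤ q ∧ (q : ℝ) ≤ (H : ℝ) ^ κ ∧
      |value ω v - p / q| ≤ c * ψ q / q}.ncard : ℝ) ≤ (BV ω ψ c κ H).card := by
  have h1 := Set.ncard_le_ncard (exc_sub ω ψ c κ H) (Finset.finite_toSet _)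
  rw [Set.ncard_coe_finset] at h1
  exact_mod_cast h1

/-- coordinates in a basis and a common denominator -/
lemma exists_value {n : ℕ} {K : IntermediateField ℚ ℝ} (b : Module.Basis (Fin (n + 1)) ℚ K)
    (hb : b 0 = 1) (a : K) : ∃ v : ℤ × (Fin n → ℤ) × ℕ, 1 ≤ v.2.2 ∧
      (a : ℝ) = value (fun i => ((b i.succ : K) : ℝ)) v := by
  classical
  set r : Fin (n + 1) → ℚ := fun i => b.repr a i with hr
  set y : ℕ := ∏ i, (r i).den with hy
  have hy0 : 0 < y := Finset.prod_pos fun i _ => (r i).den_pos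
  have hx : ∀ i, ∃ x : ℤ, (x : ℚ) = r i * y := by
    intro i
    have h1 : y = (r i).den * ∏ j ∈ Finset.univ.erase i, (r j).den := by
      rw [hy, Finset.mul_prod_erase Finset.univ (fun j => (r j).den) (Finset.mem_univ i)]
    refine ⟨(r i).num * (∏ j ∈ Finset.univ.erase i, (r j).den : ℕ), ?_⟩
    rw [h1]
    push_cast
    rw [← mul_assoc, Rat.mul_den_eq_num]
  choose x hx using hx
  refine ⟨(x 0, fun i => x i.succ, y), hy0, ?_⟩
  unfold value
  have hyR : (0 : ℝ) < y := by exact_mod_cast hy0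
  simp only
  rw [eq_div_iff hyR.ne']
  have h1 : (a : ℝ) = ∑ i, (r i : ℝ) * ((b i : K) : ℝ) := by
    conv_lhs => rw [← b.sum_repr a]
    push_cast
    refine Finset.sum_congr rfl fun i _ => ?_
    rw [Rat.smul_def]
  have hxR : ∀ i, (x i : ℝ) = (r i : ℝ) * y := by
    intro i
    have := hx i
    exact_mod_cast this
  rw [h1, Finset.sum_mul, Fin.sum_univ_succ, hb, hxR 0]
  simp only [hxR]
  congr 1
  · simp
  · refine Finset.sum_congr rfl fun i _ => ?_
    ring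

lemma basis_ok {n : ℕ} {K : IntermediateField ℚ ℝ} (b : Module.Basis (Fin (n + 1)) ℚ K)
    (hb : b 0 = 1) : (∀ i : Fin n, IsAlgebraic ℚ ((b i.succ : K) : ℝ)) ∧
      LinearIndependent ℚ (Fin.cons 1 (fun i : Fin n => ((b i.succ : K) : ℝ)) : Fin (n + 1) → ℝ) := by
  have hfin : Module.Finite ℚ K := Module.Finite.of_basis b
  constructor
  · intro i
    have h1 : IsAlgebraic ℚ (b i.succ : K) := Algebra.IsAlgebraic.isAlgebraic _
    exact h1.algebraMap
  · have h1 := b.linearIndependent.map' K.val.toLinearMap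
      (LinearMap.ker_eq_bot.2 K.val.injective)
    have e : (Fin.cons 1 (fun i : Fin n => ((b i.succ : K) : ℝ)) : Fin (n + 1) → ℝ) =
        ⇑K.val.toLinearMap ∘ ⇑b := by
      funext i
      refine Fin.cases ?_ (fun j => ?_) i
      · simp [hb]
      · simp
    rw [e]
    exact h1

/-- Let `ω_1, ..., ω_n` (`n ≥ 1`) be real algebraic numbers such that `1, ω_1, ..., ω_n` are linearly
independent over `ℚ`, and let `κ` be a real number, with `κ < n + 1` if `n ≠ 1`.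

(1) Let `ψ ≥ 0` be nonincreasing with convergent sum. There are `C, δ > 0` such that for all
`0 < c ≤ 1` and all `H ≥ 1` all but at most `C (c + H ^ (-δ)) H ^ (n + 2)` of the integer vectors
`(x_0, ..., x_n, y)` with `|x_i| ≤ H`, `1 ≤ y ≤ H`, `(x_1, ..., x_n) ≠ 0` have the following
property: the number `α = (x_0 + x_1 ω_1 + ... + x_n ω_n) / y` satisfies `|α - p / q| > c ψ (q) / q`
for all integers `p` and all `1 ≤ q ≤ H ^ κ`.

(2) For all `ε, η > 0` there is `c > 0` such that for all `H ≥ 1` all but at most `η H ^ (n + 2)` of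
these vectors satisfy `|α - p / q| > c / (q ^ 2 (log q) ^ (1 + ε))` for all integers `p` and all
`2 ≤ q ≤ H ^ κ`.

(3) This holds in particular for the real number fields: if `1, ω_1, ..., ω_n` is a basis of the real
number field `K`, then every element of `K` is one of the numbers `α`, and the assumptions on the
`ω_i` are satisfied. -/
theorem result :
    (∀ (n : ℕ) (_ : 1 ≤ n) (ω : Fin n → ℝ) (_ : ∀ i, IsAlgebraic ℚ (ω i))
      (_ : LinearIndependent ℚ (Fin.cons 1 ω : Fin (n + 1) → ℝ)) (κ : ℝ)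
      (_ : n = 1 ∨ κ < n + 1),
      (∀ (ψ : ℕ → ℝ) (_ : Antitone ψ) (_ : ∀ q, 0 ≤ ψ q) (_ : Summable ψ),
        ∃ C δ : ℝ, 0 < C ∧ 0 < δ ∧ ∀ c : ℝ, 0 < c → c ≤ 1 → ∀ H : ℕ, 1 ≤ H →
          ({v | v ∈ vectors n H ∧ ∃ (q : ℕ) (p : ℤ), 1 ≤ q ∧ (q : ℝ) ≤ (H : ℝ) ^ κ ∧
            |value ω v - p / q| ≤ c * ψ q / q}.ncard : ℝ) ≤
              C * (c + (H : ℝ) ^ (-δ)) * (H : ℝ) ^ (n + 2)) ∧
      (∀ ε η : ℝ, 0 < ε → 0 < η → ∃ c : ℝ, 0 < c ∧ ∀ H : ℕ, 1 ≤ H →
        ({v | v ∈ vectors n H ∧ ∃ (q : ℕ) (p : ℤ), 2 ≤ q ∧ (q : ℝ) ≤ (H : ℝ) ^ κ ∧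
          |value ω v - p / q| ≤ c / ((q : ℝ) ^ 2 * Real.log q ^ (1 + ε))}.ncard : ℝ) ≤
            η * (H : ℝ) ^ (n + 2))) ∧
    (∀ (n : ℕ) (K : IntermediateField ℚ ℝ) (b : Module.Basis (Fin (n + 1)) ℚ K), b 0 = 1 →
      (∀ i : Fin n, IsAlgebraic ℚ ((b i.succ : K) : ℝ)) ∧
      LinearIndependent ℚ (Fin.cons 1 (fun i : Fin n => ((b i.succ : K) : ℝ)) : Fin (n + 1) → ℝ) ∧
      ∀ a : K, ∃ v : ℤ × (Fin n → ℤ) × ℕ, 1 ≤ v.2.2 ∧
        (a : ℝ) = value (fun i : Fin n => ((b i.succ : K) : ℝ)) v) := by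
  refine ⟨?_, fun n K b hb => ⟨(basis_ok b hb).1, (basis_ok b hb).2, exists_value b hb⟩⟩
  intro n hn ω halg hli κ hκ
  obtain ⟨m, rfl⟩ : ∃ m, n = m + 1 := ⟨n - 1, by omega⟩
  have hI := ind_of ω hli
  have hκ' : m = 0 ∨ κ < m + 2 := by
    rcases hκ with h | h
    · left; omega
    · right
      push_cast at h
      linarith
  constructor
  · intro ψ hanti h0 hsum
    obtain ⟨C, δ, hC, hδ, hu⟩ := uni ω halg hI κ hκ' ψ hanti h0 hsum
    exact ⟨C, δ, hC, hδ, fun c hc hc1 H hH => (ncard_exc_le ω ψ c κ H).trans (hu c hc hc1 H hH)⟩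
  · intro ε η hε hη
    obtain ⟨c, hc, hu⟩ := eta ω halg hI κ hκ' (lang ε) (lang_anti hε) (lang_nonneg ε)
      (lang_summable hε) η hη
    refine ⟨c, hc, fun H hH => ?_⟩
    refine le_trans (Nat.cast_le.2 (Set.ncard_le_ncard ?_
      ((Finset.finite_toSet (BV ω (lang ε) c κ H)).subset (exc_sub ω (lang ε) c κ H))))
      ((ncard_exc_le ω (lang ε) c κ H).trans (hu H hH))
    rintro v ⟨hv, q, p, h1, h2, h3⟩
    refine ⟨hv, q, p, by omega, h2, h3.trans (le_of_eq ?_)⟩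
    have hq : (0 : ℝ) < q := by exact_mod_cast (by omega : 0 < q)
    have hlog : 0 < Real.log q := Real.log_pos (by exact_mod_cast (by omega : 1 < q))
    rw [lang_eq ε q h1]
    field_simp

end Pool.Agent.Results.MP_c307ca_nt.LinearCombinations
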