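import Mathlib
import Pool.Agent.NH20.NG.WH
import Pool.Agent.NH20.NF.Lang

/-!
# Lang's inequality for almost all elements of a real number field

Let `K` be a number field of degree at least `2` with a real embedding `σ`, and `κ < 1`. Almost all
elements `x` of `K`, ordered by their (relative) Weil height, satisfy Lang's inequality (and
Khintchine's inequality for every nonincreasing `ψ` with convergent sum) for all denominators
`q ≤ R ^ κ`, where `R` is the bound for the height.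

The proof uses the subspace theorem (helper files `Pool.Agent.NH20.NG`, `Pool.Agent.NH20.NF`,
`Pool.Agent.R333.SubR`).
-/

set_option autoImplicit false

open NumberField Finset Filter Topology

namespace Pool.Agent.Results.MP_c307ca_nt.NumberFields

open Pool.Agent.NH20.NF Pool.Agent.NH20.NG

/-- Let `K` be a number field of degree at least `2`, `σ` an embedding of `K` in `ℝ` and `κ < 1`. Let
`H(x)` be the Weil height of `x ∈ K` relative to `K`, the product of `max (1, |x|_v)` over all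
places `v` of `K` with the normalised absolute values.

(1) Let `ψ ≥ 0` be nonincreasing with convergent sum. There are `C, δ > 0` such that for all
`0 < c ≤ 1` and all `R ≥ 1` there are at most `C (c + R ^ (-δ)) R ^ 2` elements `x ∈ K` with
`H(x) ≤ R` such that `|σ(x) - p / q| ≤ c ψ (q) / q` for some integer `p` and some `1 ≤ q ≤ R ^ κ`.

(2) For all `ε, η > 0` there is `c > 0` such that for all `R ≥ 1` the number of elements `x ∈ K` with
`H(x) ≤ R`, with `σ(x)` irrational and with `|σ(x) - p / q| ≤ c / (q ^ 2 (log q) ^ (1 + ε))` for some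
integer `p` and some `2 ≤ q ≤ R ^ κ` is at most `η` times the number of all elements `x ∈ K` with
`H(x) ≤ R`. -/
theorem result (K : Type) [Field K] [NumberField K] (σ : K →+* ℝ)
    (hd : 2 ≤ Module.finrank ℚ K) (κ : ℝ) (hκ : κ < 1) :
    (∀ (ψ : ℕ → ℝ) (_ : Antitone ψ) (_ : ∀ q, 0 ≤ ψ q) (_ : Summable ψ),
      ∃ C δ : ℝ, 0 < C ∧ 0 < δ ∧ ∀ c : ℝ, 0 < c → c ≤ 1 → ∀ R : ℝ, 1 ≤ R →
        ({x : K | Height.mulHeight₁ x ≤ R ∧ ∃ (q : ℕ) (p : ℤ), 1 ≤ q ∧ (q : ℝ) ≤ R ^ κ ∧
          |σ x - p / q| ≤ c * ψ q / q}.ncard : ℝ) ≤ C * (c + R ^ (-δ)) * R ^ 2) ∧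
    (∀ ε η : ℝ, 0 < ε → 0 < η → ∃ c : ℝ, 0 < c ∧ ∀ R : ℝ, 1 ≤ R →
      ({x : K | Height.mulHeight₁ x ≤ R ∧ Irrational (σ x) ∧ ∃ (q : ℕ) (p : ℤ), 2 ≤ q ∧
        (q : ℝ) ≤ R ^ κ ∧ |σ x - p / q| ≤ c / ((q : ℝ) ^ 2 * Real.log q ^ (1 + ε))}.ncard : ℝ) ≤
          η * ({x : K | Height.mulHeight₁ x ≤ R}.ncard : ℝ)) := by
  constructor
  · intro ψ hanti h0 hsum
    exact weil σ hd κ hκ ψ hanti h0 hsum
  · intro ε η hε hη
    obtain ⟨c, hc, hu⟩ := weil_eta σ hd κ hκ (lang ε) (lang_anti hε) (lang_nonneg ε)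
      (lang_summable hε) η hη
    refine ⟨c, hc, fun R hR => le_trans (Nat.cast_le.2 (Set.ncard_le_ncard ?_
      ((NumberField.finite_setOfPred_mulHeight₁_le K R).subset fun x hx => hx.1.1))) (hu R hR)⟩
    rintro x ⟨hx, hirr, q, p, h1, h2, h3⟩
    refine ⟨⟨hx, q, p, by omega, h2, h3.trans (le_of_eq ?_)⟩, hirr⟩
    have hq : (0 : ℝ) < q := by exact_mod_cast (by omega : 0 < q)
    have hlog : 0 < Real.log q := Real.log_pos (by exact_mod_cast (by omega : 1 < q))
    rw [lang_eq ε q h1]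
    field_simp

end Pool.Agent.Results.MP_c307ca_nt.NumberFields
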