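import Mathlib
import Pool.Agent.NH26.HC.Main

/-!
Lang's inequality for a cubic number and the fractions at which its form is a square times given
primes.
-/

set_option autoImplicit false

namespace Pool.Agent.Results.MP_c307ca_nt.SquareValues

open Finset Pool.Agent.NH26.HC

/-- the form in terms of the divided one -/
theorem cu_F (a b c d D p q : ℤ) : cu (9 * D * a) (3 * D * b) (3 * D * c) (9 * D * d) p q =
    9 * D * (a * p ^ 3 + b * p ^ 2 * q + c * p * q ^ 2 + d * q ^ 3) := by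
  unfold cu; ring

theorem di_F (a b c d D : ℤ) : di (9 * D * a) (3 * D * b) (3 * D * c) (9 * D * d) =
    -(243 * D ^ 4) * (b ^ 2 * c ^ 2 - 4 * a * c ^ 3 - 4 * b ^ 3 * d - 27 * a ^ 2 * d ^ 2 +
      18 * a * b * c * d) := by
  unfold di; ring

/-- the lower bound for the value of the form -/
theorem value (a b c d : ℤ) (hdisc : b ^ 2 * c ^ 2 - 4 * a * c ^ 3 - 4 * b ^ 3 * d -
    27 * a ^ 2 * d ^ 2 + 18 * a * b * c * d ≠ 0) (T : Finset ℕ) (hT : ∀ p ∈ T, p.Prime) (ε : ℝ)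
    (hε : 0 < ε) (hε1 : ε ≤ 1) :
    ∃ κ : ℝ, 0 < κ ∧ ∀ p q u m : ℤ, IsCoprime p q → u ≠ 0 → m ≠ 0 → TU T u →
      a * p ^ 3 + b * p ^ 2 * q + c * p * q ^ 2 + d * q ^ 3 = u * m ^ 2 →
      κ * (max |(p : ℝ)| |(q : ℝ)|) ^ (2 - 2 * ε) ≤
        tp T (a * p ^ 3 + b * p ^ 2 * q + c * p * q ^ 2 + d * q ^ 3) := by
  set B : ℤ := ((∏ p ∈ T, p : ℕ) : ℤ) ^ 4 with hB
  have hSf : {D : ℤ | |D| ≤ B ∧ D ≠ 0}.Finite := by
    apply (Set.finite_Icc (-B) B).subset
    rintro D ⟨hD, -⟩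
    exact ⟨(abs_le.1 hD).1, (abs_le.1 hD).2⟩
  obtain ⟨κ, hκ, hb⟩ := unif hSf (fun κ D => ∀ s t M : ℤ, IsCoprime s t →
    cu (9 * D * a) (3 * D * b) (3 * D * c) (9 * D * d) s t = M ^ 2 → M ≠ 0 →
      κ * (max |(s : ℝ)| |(t : ℝ)|) ^ (1 - ε) ≤ tp T M)
    (by
      intro c c' f hc' hcc h s t M hst hM hne
      refine le_trans ?_ (h s t M hst hM hne)
      exact mul_le_mul_of_nonneg_right hcc (Real.rpow_nonneg (le_max_of_le_left (abs_nonneg _)) _))
    (fun D hD => sq_form _ _ _ _ (by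
      rw [di_F]
      exact mul_ne_zero (neg_ne_zero.2 (mul_ne_zero (by norm_num) (pow_ne_zero _ hD.2))) hdisc)
      T hT ε hε hε1)
  have hB1 : (1 : ℝ) ≤ B := by
    have : 1 ≤ ∏ p ∈ T, p := Nat.one_le_iff_ne_zero.2 (Finset.prod_ne_zero_iff.2
      fun p hp => (hT p hp).ne_zero)
    rw [hB]
    have h2 : (1 : ℤ) ≤ ((∏ p ∈ T, p : ℕ) : ℤ) := by exact_mod_cast this
    have h3 : (1 : ℤ) ≤ ((∏ p ∈ T, p : ℕ) : ℤ) ^ 4 := one_le_pow₀ h2
    exact_mod_cast h3
  refine ⟨(κ / (3 * B)) ^ 2, by positivity, ?_⟩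
  intro p q u m hpq hu hm hTU h
  obtain ⟨D, t, e1, hD, ht, hTt, hDb, -⟩ := unit_split T hT 2 (by norm_num) (by norm_num) u hu hTU
  have h1 := hb D ⟨hDb, hD⟩ p q (3 * D * (t * m)) hpq (by rw [cu_F, h, e1]; ring)
    (mul_ne_zero (mul_ne_zero (by norm_num) hD) (mul_ne_zero ht hm))
  have h2 : tp T (3 * D * (t * m)) ≤ 3 * B * tp T m := by
    rw [tp_mul T hT, tp_mul T hT t m, tp_unit T hT t ht hTt, one_mul]
    apply mul_le_mul_of_nonneg_right _ (tp_nonneg T m)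
    refine (tp_le T hT _).trans ?_
    push_cast
    rw [abs_mul]
    have h3 : |(3 : ℝ)| = 3 := by norm_num
    rw [h3]
    have : |(D : ℝ)| ≤ B := by exact_mod_cast hDb
    linarith
  have h3 : κ / (3 * B) * (max |(p : ℝ)| |(q : ℝ)|) ^ (1 - ε) ≤ tp T m := by
    have h4 := h1.trans h2
    rw [div_mul_eq_mul_div, div_le_iff₀ (by positivity)]
    linarith
  have hX0 : (0 : ℝ) ≤ max |(p : ℝ)| |(q : ℝ)| := le_max_of_le_left (abs_nonneg _)
  have h5 := pow_le_pow_left₀ (by positivity) h3 2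
  rw [mul_pow, ← Real.rpow_mul_natCast hX0] at h5
  have e2 : (1 - ε) * ((2 : ℕ) : ℝ) = 2 - 2 * ε := by push_cast; ring
  rw [e2] at h5
  refine h5.trans ?_
  rw [h, tp_mul T hT, tp_unit T hT u hu hTU, one_mul, pow_two m, tp_mul T hT, pow_two]

/-- **Lang's inequality for a cubic number at fractions with square values of its form.**
Let `F = a X³ + b X² Y + c X Y² + d Y³` be an integral cubic form of nonzero discriminant with
`F(ξ, 1) = 0`, `ξ` real (for instance the primitive form of a real cubic number `ξ`), let `T` be a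
finite set of primes and `ε > 0`.  There is `C > 0` such that for every fraction `p / q` in lowest
terms for which `F(p, q) = u m² ≠ 0` with all prime factors of `u` in `T`:
`|ξ - p / q| > C / q^(1 + ε)`, and with `h = max(|p|, q)` even
`min(1, |ξ - p / q|) ∏_{ℓ in T} |F(p, q)|_ℓ > C / h^(1 + ε)`. -/
theorem result (a b c d : ℤ) (hdisc : b ^ 2 * c ^ 2 - 4 * a * c ^ 3 - 4 * b ^ 3 * d -
    27 * a ^ 2 * d ^ 2 + 18 * a * b * c * d ≠ 0) (ξ : ℝ)
    (hξ : a * ξ ^ 3 + b * ξ ^ 2 + c * ξ + d = 0) (T : Finset ℕ) (hT : ∀ p ∈ T, p.Prime) (ε : ℝ)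
    (hε : 0 < ε) :
    ∃ C : ℝ, 0 < C ∧ ∀ (p : ℤ) (q : ℕ) (u m : ℤ), 1 ≤ q → IsCoprime p (q : ℤ) →
      (∀ ℓ : ℕ, ℓ.Prime → (ℓ : ℤ) ∣ u → ℓ ∈ T) →
      a * p ^ 3 + b * p ^ 2 * q + c * p * q ^ 2 + d * q ^ 3 = u * m ^ 2 → u * m ^ 2 ≠ 0 →
      C / (q : ℝ) ^ (1 + ε) < |ξ - (p : ℝ) / q| ∧
      C / (max |(p : ℝ)| (q : ℝ)) ^ (1 + ε) < min 1 |ξ - (p : ℝ) / q| *
        ∏ ℓ ∈ T, (padicNorm ℓ ((u * m ^ 2 : ℤ) : ℚ) : ℝ) := by
  set e0 : ℝ := min (ε / 2) 1 with he0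
  have he00 : 0 < e0 := lt_min (by linarith) one_pos
  have he01 : e0 ≤ 1 := min_le_right _ _
  have he0ε : 2 * e0 ≤ ε := by
    have := min_le_left (ε / 2) 1
    rw [he0]; linarith
  obtain ⟨κ, hκ, hb⟩ := value a b c d hdisc T hT e0 he00 he01
  -- constants
  set A : ℝ := |(a : ℝ)| + |(b : ℝ)| + |(c : ℝ)| + |(d : ℝ)| with hA
  set L : ℝ := 1 + |ξ| with hL
  have hL1 : 1 ≤ L := by rw [hL]; linarith [abs_nonneg ξ]
  have hA0 : 0 < A + 1 := by positivity
  set C1 : ℝ := 12 * (A + 1) * L ^ 4 with hC1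
  have hC10 : 0 < C1 := by positivity
  set C2 : ℝ := κ / (2 * C1) with hC2
  have hC20 : 0 < C2 := by positivity
  -- the main inequality
  have main : ∀ (p : ℤ) (q : ℕ) (u m : ℤ), 1 ≤ q → IsCoprime p (q : ℤ) → TU T u →
      a * p ^ 3 + b * p ^ 2 * q + c * p * q ^ 2 + d * q ^ 3 = u * m ^ 2 → u * m ^ 2 ≠ 0 →
      C2 / (max |(p : ℝ)| (q : ℝ)) ^ (1 + ε) < min 1 |ξ - (p : ℝ) / q| *
        ∏ ℓ ∈ T, (padicNorm ℓ ((u * m ^ 2 : ℤ) : ℚ) : ℝ) := by
    intro p q u m hq hpq hTU h hne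
    have hu0 : u ≠ 0 := left_ne_zero_of_mul hne
    have hm0 : m ≠ 0 := by
      rintro rfl
      apply hne; ring
    have h1 := hb p q u m hpq hu0 hm0 hTU h
    rw [h] at h1
    have hqR : (1 : ℝ) ≤ q := by exact_mod_cast hq
    have hq0 : (0 : ℝ) < q := by linarith
    have hqabs : |((q : ℤ) : ℝ)| = (q : ℝ) := by
      push_cast
      exact abs_of_pos hq0
    rw [hqabs] at h1
    set H : ℝ := max |(p : ℝ)| (q : ℝ) with hH
    have hH1 : 1 ≤ H := hqR.trans (le_max_right _ _)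
    have hH0 : 0 < H := by linarith
    have hpH : |(p : ℝ)| ≤ H := le_max_left _ _
    have hqH : (q : ℝ) ≤ H := le_max_right _ _
    set PP : ℝ := ∏ ℓ ∈ T, (padicNorm ℓ ((u * m ^ 2 : ℤ) : ℚ) : ℝ) with hPP
    have hPP0 : 0 ≤ PP := prod_nonneg' T _
    have h1' : κ * H ^ (2 - 2 * e0) ≤ |((u * m ^ 2 : ℤ) : ℝ)| * PP := h1
    set δ : ℝ := |ξ - (p : ℝ) / q| with hδ
    have hδ0 : 0 ≤ δ := abs_nonneg _
    -- the size of F(p, q)
    have hF : |((u * m ^ 2 : ℤ) : ℝ)| ≤ C1 * H ^ 3 * min 1 δ := by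
      rw [← h]
      push_cast
      rcases le_total 1 δ with hd1 | hd1
      · rw [min_eq_left hd1, mul_one]
        have hpq0 : |(q : ℝ)| ≤ H := by rw [abs_of_pos hq0]; exact hqH
        have m1 := mono_le a p q H hpH hpq0 3 0
        have m2 := mono_le b p q H hpH hpq0 2 1
        have m3 := mono_le c p q H hpH hpq0 1 2
        have m4 := mono_le d p q H hpH hpq0 0 3
        have k1 := abs_le.1 m1
        have k2 := abs_le.1 m2
        have k3 := abs_le.1 m3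
        have k4 := abs_le.1 m4
        have hle : A * H ^ 3 ≤ C1 * H ^ 3 := by
          apply mul_le_mul_of_nonneg_right _ (by positivity)
          rw [hC1]
          have : 1 ≤ L ^ 4 := one_le_pow₀ hL1
          nlinarith
        refine le_trans ?_ hle
        have e7 : (a : ℝ) * p ^ 3 + b * p ^ 2 * q + c * p * q ^ 2 + d * q ^ 3 =
            a * p ^ 3 * q ^ 0 + b * p ^ 2 * q ^ 1 + c * p ^ 1 * q ^ 2 + d * p ^ 0 * q ^ 3 := by ring
        have e8 : A * H ^ 3 = |(a : ℝ)| * H ^ (3 + 0) + |(b : ℝ)| * H ^ (2 + 1) +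
            |(c : ℝ)| * H ^ (1 + 2) + |(d : ℝ)| * H ^ (0 + 3) := by
          rw [hA]; ring
        rw [e7, e8, abs_le]
        constructor <;> linarith [k1.1, k1.2, k2.1, k2.2, k3.1, k3.2, k4.1, k4.2]
      · rw [min_eq_right hd1]
        -- factor
        set x : ℝ := (p : ℝ) / q with hx
        have hxL : |x| ≤ L := by
          have : |x| ≤ |ξ| + |ξ - x| := by
            have := abs_sub_abs_le_abs_sub x ξ
            rw [abs_sub_comm x ξ] at this
            linarith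
          rw [hL]; linarith
        have hξL : |ξ| ≤ L := by rw [hL]; linarith
        have hfac : (a : ℝ) * p ^ 3 + b * p ^ 2 * q + c * p * q ^ 2 + d * q ^ 3 =
            (q : ℝ) ^ 3 * (-(ξ - x)) * (a * x ^ 2 + a * x * ξ + a * ξ ^ 2 + b * x + b * ξ + c) := by
          have e1 : (p : ℝ) = x * q := by rw [hx]; field_simp
          rw [e1]
          linear_combination (q : ℝ) ^ 3 * hξ
        rw [hfac, abs_mul, abs_mul, abs_neg, abs_pow, abs_of_pos hq0]
        have hL2 : L ≤ L ^ 2 := by nlinarith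
        have hL4 : L ^ 2 ≤ L ^ 4 := pow_le_pow_right₀ hL1 (by norm_num)
        have hsum : |(a : ℝ) * x ^ 2 + a * x * ξ + a * ξ ^ 2 + b * x + b * ξ + c| ≤
            12 * (A + 1) * L ^ 4 := by
          have t1 : |(a : ℝ) * x ^ 2 + a * x * ξ + a * ξ ^ 2 + b * x + b * ξ + c| ≤
              |(a : ℝ) * x ^ 2| + |(a : ℝ) * x * ξ| + |(a : ℝ) * ξ ^ 2| + |(b : ℝ) * x| +
              |(b : ℝ) * ξ| + |(c : ℝ)| := by
            refine (abs_add_le _ _).trans (add_le_add_left ?_ _)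
            refine (abs_add_le _ _).trans (add_le_add_left ?_ _)
            refine (abs_add_le _ _).trans (add_le_add_left ?_ _)
            refine (abs_add_le _ _).trans (add_le_add_left ?_ _)
            exact abs_add_le _ _
          have a1 : |(a : ℝ) * x ^ 2| ≤ |(a : ℝ)| * L ^ 2 := by
            rw [abs_mul, abs_pow]
            exact mul_le_mul_of_nonneg_left (pow_le_pow_left₀ (abs_nonneg _) hxL 2) (abs_nonneg _)
          have a2 : |(a : ℝ) * x * ξ| ≤ |(a : ℝ)| * L ^ 2 := by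
            rw [abs_mul, abs_mul, mul_assoc, sq L]
            exact mul_le_mul_of_nonneg_left (mul_le_mul hxL hξL (abs_nonneg _) (by linarith))
              (abs_nonneg _)
          have a3 : |(a : ℝ) * ξ ^ 2| ≤ |(a : ℝ)| * L ^ 2 := by
            rw [abs_mul, abs_pow]
            exact mul_le_mul_of_nonneg_left (pow_le_pow_left₀ (abs_nonneg _) hξL 2) (abs_nonneg _)
          have a4 : |(b : ℝ) * x| ≤ |(b : ℝ)| * L := by
            rw [abs_mul]; exact mul_le_mul_of_nonneg_left hxL (abs_nonneg _)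
          have a5 : |(b : ℝ) * ξ| ≤ |(b : ℝ)| * L := by
            rw [abs_mul]; exact mul_le_mul_of_nonneg_left hξL (abs_nonneg _)
          have b1 : |(a : ℝ)| * L ^ 2 ≤ |(a : ℝ)| * L ^ 4 :=
            mul_le_mul_of_nonneg_left hL4 (abs_nonneg _)
          have b2 : |(b : ℝ)| * L ≤ |(b : ℝ)| * L ^ 4 :=
            mul_le_mul_of_nonneg_left (hL2.trans hL4) (abs_nonneg _)
          have b3 : |(c : ℝ)| ≤ |(c : ℝ)| * L ^ 4 :=
            le_mul_of_one_le_right (abs_nonneg _) (one_le_pow₀ hL1)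
          have hd0 : 0 ≤ |(d : ℝ)| * L ^ 4 := by positivity
          have hL40 : 0 ≤ L ^ 4 := by positivity
          have ha0 : 0 ≤ |(a : ℝ)| * L ^ 4 := by positivity
          have hb0 : 0 ≤ |(b : ℝ)| * L ^ 4 := by positivity
          have hc0 : 0 ≤ |(c : ℝ)| * L ^ 4 := by positivity
          have e9 : 12 * (A + 1) * L ^ 4 = 12 * (|(a : ℝ)| * L ^ 4) + 12 * (|(b : ℝ)| * L ^ 4) +
              12 * (|(c : ℝ)| * L ^ 4) + 12 * (|(d : ℝ)| * L ^ 4) + 12 * L ^ 4 := by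
            rw [hA]; ring
          rw [e9]
          linarith
        have hq3 : (q : ℝ) ^ 3 ≤ H ^ 3 := pow_le_pow_left₀ hq0.le hqH 3
        calc (q : ℝ) ^ 3 * |ξ - x| * |(a : ℝ) * x ^ 2 + a * x * ξ + a * ξ ^ 2 + b * x + b * ξ + c|
            ≤ H ^ 3 * |ξ - x| * (12 * (A + 1) * L ^ 4) :=
              mul_le_mul (mul_le_mul_of_nonneg_right hq3 (abs_nonneg _)) hsum (abs_nonneg _)
                (by positivity)
          _ = C1 * H ^ 3 * δ := by rw [hC1, hδ]; ring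
    have hHp : 0 < H ^ (1 + ε) := Real.rpow_pos_of_pos hH0 _
    rw [div_lt_iff₀ hHp]
    -- κ H^(2-2e0) ≤ C1 H^3 min(1,δ) PP
    have h2 : κ * H ^ (2 - 2 * e0) ≤ C1 * H ^ 3 * min 1 δ * PP :=
      h1'.trans (mul_le_mul_of_nonneg_right hF hPP0)
    have e3 : H ^ (2 - 2 * e0) = H ^ 3 * H ^ (-(1 + 2 * e0)) := by
      rw [← Real.rpow_natCast H 3, ← Real.rpow_add hH0]
      congr 1
      push_cast
      ring
    rw [e3] at h2
    have hH3 : 0 < H ^ 3 := by positivity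
    have h3 : κ * H ^ (-(1 + 2 * e0)) ≤ C1 * (min 1 δ * PP) := by
      have : H ^ 3 * (κ * H ^ (-(1 + 2 * e0))) ≤ H ^ 3 * (C1 * (min 1 δ * PP)) := by
        calc H ^ 3 * (κ * H ^ (-(1 + 2 * e0))) = κ * (H ^ 3 * H ^ (-(1 + 2 * e0))) := by ring
          _ ≤ C1 * H ^ 3 * min 1 δ * PP := h2
          _ = H ^ 3 * (C1 * (min 1 δ * PP)) := by ring
      exact le_of_mul_le_mul_left this hH3
    have h4 : H ^ (-(1 + 2 * e0)) * H ^ (1 + ε) = H ^ (ε - 2 * e0) := by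
      rw [← Real.rpow_add hH0]
      congr 1
      ring
    have h5 : 1 ≤ H ^ (ε - 2 * e0) := Real.one_le_rpow hH1 (by linarith)
    have h6 : κ * H ^ (ε - 2 * e0) ≤ C1 * (min 1 δ * PP) * H ^ (1 + ε) := by
      rw [← h4, ← mul_assoc]
      exact mul_le_mul_of_nonneg_right h3 hHp.le
    have h7 : κ ≤ C1 * (min 1 δ * PP * H ^ (1 + ε)) := by nlinarith
    have h8 : 2 * C1 * C2 = κ := by rw [hC2]; field_simp
    nlinarith
  set C3 : ℝ := min (C2 / L ^ (1 + ε)) (1 / 2) with hC3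
  have hC30 : 0 < C3 := lt_min (by positivity) (by norm_num)
  refine ⟨min C2 C3, lt_min hC20 hC30, ?_⟩
  intro p q u m hq hpq hTU h hne
  have h1 := main p q u m hq hpq hTU h hne
  have hqR : (1 : ℝ) ≤ q := by exact_mod_cast hq
  have hq0 : (0 : ℝ) < q := by linarith
  constructor
  · by_cases hd1 : 1 ≤ |ξ - (p : ℝ) / q|
    · refine lt_of_lt_of_le ?_ hd1
      rw [div_lt_one (by positivity)]
      have h2 : min C2 C3 ≤ 1 / 2 := (min_le_right _ _).trans (min_le_right _ _)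
      have h3 : 1 ≤ (q : ℝ) ^ (1 + ε) := Real.one_le_rpow hqR (by linarith)
      linarith
    · push Not at hd1
      rw [min_eq_right hd1.le] at h1
      have hPP1 : ∏ ℓ ∈ T, (padicNorm ℓ ((u * m ^ 2 : ℤ) : ℚ) : ℝ) ≤ 1 := by
        refine prod_le_one (fun p _ => by exact_mod_cast padicNorm.nonneg (p := p) _) fun p hp => ?_
        have := Fact.mk (hT p hp)
        have h9 := padicNorm.of_int (p := p) (u * m ^ 2 : ℤ)
        exact_mod_cast h9
      have h2 : C2 / (max |(p : ℝ)| (q : ℝ)) ^ (1 + ε) < |ξ - (p : ℝ) / q| := by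
        refine lt_of_lt_of_le h1 ?_
        have := mul_le_mul_of_nonneg_left hPP1 (abs_nonneg (ξ - (p : ℝ) / q))
        linarith
      refine lt_of_le_of_lt ?_ h2
      have hmax : max |(p : ℝ)| (q : ℝ) ≤ L * q := by
        refine max_le ?_ ?_
        · have h4 : |(p : ℝ) / q| ≤ L := by
            have h5 := abs_sub_abs_le_abs_sub ((p : ℝ) / q) ξ
            rw [abs_sub_comm ((p : ℝ) / q) ξ] at h5
            rw [hL]; linarith
          rw [abs_div, abs_of_pos hq0, div_le_iff₀ hq0] at h4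
          exact h4
        · nlinarith
      have hmax0 : 0 < max |(p : ℝ)| (q : ℝ) := lt_of_lt_of_le hq0 (le_max_right _ _)
      have h6 : (max |(p : ℝ)| (q : ℝ)) ^ (1 + ε) ≤ L ^ (1 + ε) * (q : ℝ) ^ (1 + ε) := by
        rw [← Real.mul_rpow (by linarith) hq0.le]
        exact Real.rpow_le_rpow hmax0.le hmax (by linarith)
      have h7 : min C2 C3 ≤ C2 / L ^ (1 + ε) := (min_le_right _ _).trans (min_le_left _ _)
      have hL0 : 0 < L ^ (1 + ε) := by positivity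
      have hq0' : 0 < (q : ℝ) ^ (1 + ε) := by positivity
      have hm0 : 0 < (max |(p : ℝ)| (q : ℝ)) ^ (1 + ε) := Real.rpow_pos_of_pos hmax0 _
      rw [div_le_div_iff₀ hq0' hm0]
      rw [le_div_iff₀ hL0] at h7
      have hmin0 : 0 ≤ min C2 C3 := (lt_min hC20 hC30).le
      calc min C2 C3 * (max |(p : ℝ)| (q : ℝ)) ^ (1 + ε)
          ≤ min C2 C3 * (L ^ (1 + ε) * (q : ℝ) ^ (1 + ε)) := mul_le_mul_of_nonneg_left h6 hmin0
        _ = (min C2 C3 * L ^ (1 + ε)) * (q : ℝ) ^ (1 + ε) := by ring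
        _ ≤ C2 * (q : ℝ) ^ (1 + ε) := mul_le_mul_of_nonneg_right h7 hq0'.le
  · refine lt_of_le_of_lt ?_ h1
    apply div_le_div_of_nonneg_right (min_le_left _ _)
    apply Real.rpow_nonneg (le_max_of_le_left (abs_nonneg _))

end Pool.Agent.Results.MP_c307ca_nt.SquareValues
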