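import Mathlib
import Pool.Agent.NH20.NG.DilU
import Pool.Agent.NH20.NF.Lang

/-!
# Lang's inequality for dilated and translated integer combinations of algebraic numbers

Let `ω_1, ..., ω_m` (`m ≥ 2`) be real algebraic numbers, linearly independent over the rationals.
Uniformly in the real numbers `β` and `θ`, `H ^ γ ≤ |β| ≤ C₀ H`, almost all the numbers
`(θ + x_1 ω_1 + ... + x_m ω_m) / β`, `|x_i| ≤ H`, satisfy Lang's inequality (and Khintchine's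
inequality for every nonincreasing `ψ` with convergent sum) for all denominators `q ≤ H ^ κ`,
`κ < m - 1 + γ`. No arithmetical condition on `β` and `θ` is needed: `β` can be an integer, or an
element of a number field.

The proof uses the subspace theorem (helper files `Pool.Agent.NH20.NG`, `Pool.Agent.NH20.NF`,
`Pool.Agent.R333.SubR`).
-/

set_option autoImplicit false

open Finset Filter Topology

namespace Pool.Agent.Results.MP_c307ca_nt.UniformDilations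

open Pool.Agent.NH20.NF Pool.Agent.NH20.NG

lemma li_of {m : ℕ} (ω : Fin m → ℝ) (h : LinearIndependent ℚ ω) : LI ω := by
  intro b hb
  have h1 := Fintype.linearIndependent_iff.1 h (fun i => (b i : ℚ)) (by
    simp only [Rat.smul_def]
    push_cast
    exact hb)
  funext i
  exact_mod_cast h1 i

lemma ncard_le {m : ℕ} (ω : Fin m → ℝ) (ψ : ℕ → ℝ) (c κ : ℝ) (H : ℕ) (β θ : ℝ) :
    ({x : Fin m → ℤ | (∀ i, |x i| ≤ (H : ℤ)) ∧ ∃ (q : ℕ) (p : ℤ), 1 ≤ q ∧ (q : ℝ) ≤ (H : ℝ) ^ κ ∧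
      |(θ + ∑ i, (x i : ℝ) * ω i) / β - p / q| ≤ c * ψ q / q}.ncard : ℝ) ≤
      (BD ω ψ c κ H β θ).card := by
  classical
  have hsub : {x : Fin m → ℤ | (∀ i, |x i| ≤ (H : ℤ)) ∧ ∃ (q : ℕ) (p : ℤ), 1 ≤ q ∧
      (q : ℝ) ≤ (H : ℝ) ^ κ ∧ |(θ + ∑ i, (x i : ℝ) * ω i) / β - p / q| ≤ c * ψ q / q} ⊆
      (BD ω ψ c κ H β θ : Set (Fin m → ℤ)) := by
    rintro x ⟨h1, q, p, h6, h7, h8⟩
    unfold BD
    rw [Finset.mem_coe, Finset.mem_filter, mem_bx]
    refine ⟨h1, q, h6, h7, p, ?_⟩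
    have hq : (0 : ℝ) < q := by exact_mod_cast (by omega : 0 < q)
    have h9 : (q : ℝ) * ((θ + lf ω x) / β) - p =
        q * ((θ + ∑ i, (x i : ℝ) * ω i) / β - p / q) := by
      unfold lf
      field_simp
    rw [h9, abs_mul, abs_of_pos hq]
    rw [le_div_iff₀ hq] at h8
    linarith
  have h1 := Set.ncard_le_ncard hsub (Finset.finite_toSet _)
  rw [Set.ncard_coe_finset] at h1
  exact_mod_cast h1

/-- Let `ω_1, ..., ω_m` (`m ≥ 2`) be real algebraic numbers, linearly independent over `ℚ`,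
`0 ≤ γ ≤ 1`, `κ < m - 1 + γ` and `C₀` real numbers.

(1) Let `ψ ≥ 0` be nonincreasing with convergent sum. There are `C, δ > 0` such that for all
`0 < c ≤ 1`, all `H ≥ 1` and all real numbers `β, θ` with `H ^ γ ≤ |β| ≤ C₀ H` all but at most
`C (c + H ^ (-δ)) H ^ m` of the integer vectors `x` with `|x_i| ≤ H` have the following property:
the number `α = (θ + x_1 ω_1 + ... + x_m ω_m) / β` satisfies `|α - p / q| > c ψ (q) / q` for all
integers `p` and all `1 ≤ q ≤ H ^ κ`.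

(2) In particular, for every `ε > 0` there are `C, δ > 0` such that for these `c, H, β, θ` all but at
most `C (c + H ^ (-δ)) H ^ m` of these vectors satisfy `|α - p / q| > c / (q ^ 2 (log q) ^ (1 + ε))`
for all integers `p` and all `2 ≤ q ≤ H ^ κ`. -/
theorem result (m : ℕ) (hm : 2 ≤ m) (ω : Fin m → ℝ) (halg : ∀ i, IsAlgebraic ℚ (ω i))
    (hli : LinearIndependent ℚ ω) (C₀ γ κ : ℝ) (hγ0 : 0 ≤ γ) (hγ1 : γ ≤ 1)
    (hκ : κ < m - 1 + γ) :
    (∀ (ψ : ℕ → ℝ) (_ : Antitone ψ) (_ : ∀ q, 0 ≤ ψ q) (_ : Summable ψ),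
      ∃ C δ : ℝ, 0 < C ∧ 0 < δ ∧ ∀ c : ℝ, 0 < c → c ≤ 1 → ∀ H : ℕ, 1 ≤ H → ∀ β θ : ℝ,
        (H : ℝ) ^ γ ≤ |β| → |β| ≤ C₀ * H →
        ({x : Fin m → ℤ | (∀ i, |x i| ≤ (H : ℤ)) ∧ ∃ (q : ℕ) (p : ℤ), 1 ≤ q ∧
          (q : ℝ) ≤ (H : ℝ) ^ κ ∧
          |(θ + ∑ i, (x i : ℝ) * ω i) / β - p / q| ≤ c * ψ q / q}.ncard : ℝ) ≤
            C * (c + (H : ℝ) ^ (-δ)) * (H : ℝ) ^ m) ∧
    (∀ ε : ℝ, 0 < ε →
      ∃ C δ : ℝ, 0 < C ∧ 0 < δ ∧ ∀ c : ℝ, 0 < c → c ≤ 1 → ∀ H : ℕ, 1 ≤ H → ∀ β θ : ℝ,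
        (H : ℝ) ^ γ ≤ |β| → |β| ≤ C₀ * H →
        ({x : Fin m → ℤ | (∀ i, |x i| ≤ (H : ℤ)) ∧ ∃ (q : ℕ) (p : ℤ), 2 ≤ q ∧
          (q : ℝ) ≤ (H : ℝ) ^ κ ∧
          |(θ + ∑ i, (x i : ℝ) * ω i) / β - p / q| ≤
            c / ((q : ℝ) ^ 2 * Real.log q ^ (1 + ε))}.ncard : ℝ) ≤
            C * (c + (H : ℝ) ^ (-δ)) * (H : ℝ) ^ m) := by
  classical
  obtain ⟨n, rfl⟩ : ∃ n, m = n + 2 := ⟨m - 2, by omega⟩
  have hI := li_of ω hli
  have hκ' : κ < n + 1 + γ := by push_cast at hκ; linarith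
  have key := fun (ψ : ℕ → ℝ) (hanti : Antitone ψ) (h0 : ∀ q, 0 ≤ ψ q) (hsum : Summable ψ) =>
    dil ω halg hI (max C₀ 1) γ (le_max_right _ _) hγ0 hγ1 κ hκ' ψ hanti h0 hsum
  constructor
  · intro ψ hanti h0 hsum
    obtain ⟨C, δ, hC, hδ, hu⟩ := key ψ hanti h0 hsum
    refine ⟨C, δ, hC, hδ, fun c hc hc1 H hH β θ hβγ hβH => (ncard_le ω ψ c κ H β θ).trans
      (hu c hc hc1 H hH β θ hβγ (hβH.trans ?_))⟩
    exact mul_le_mul_of_nonneg_right (le_max_left _ _) (Nat.cast_nonneg _)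
  · intro ε hε
    obtain ⟨C, δ, hC, hδ, hu⟩ := key (lang ε) (lang_anti hε) (lang_nonneg ε) (lang_summable hε)
    refine ⟨C, δ, hC, hδ, fun c hc hc1 H hH β θ hβγ hβH => le_trans ?_
      ((ncard_le ω (lang ε) c κ H β θ).trans (hu c hc hc1 H hH β θ hβγ (hβH.trans ?_)))⟩
    · apply Nat.cast_le.2
      apply Set.ncard_le_ncard
      · rintro x ⟨hx, q, p, h1, h2, h3⟩
        refine ⟨hx, q, p, by omega, h2, h3.trans (le_of_eq ?_)⟩
        have hq : (0 : ℝ) < q := by exact_mod_cast (by omega : 0 < q)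
        have hlog : 0 < Real.log q := Real.log_pos (by exact_mod_cast (by omega : 1 < q))
        rw [lang_eq ε q h1]
        field_simp
      · refine (Finset.finite_toSet (bx (n + 2) H)).subset ?_
        rintro x ⟨hx, -⟩
        rw [Finset.mem_coe, mem_bx]
        exact hx
    · exact mul_le_mul_of_nonneg_right (le_max_left _ _) (Nat.cast_nonneg _)

end Pool.Agent.Results.MP_c307ca_nt.UniformDilations
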